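import Pool.Agent.Lib.MP_6b2627_an.Main

/-!
# Typical Assouad spectrum of graphs in the space `C^ω[0,1]`: the answer is negative

Definitions: `Pool.Agent.Lib.MP_6b2627_an.Defs`.

Idea of the proof.  A lacunary series `f₀` with modulus `t^η` oscillates by at least `c |I|^η` on
every interval `I`, and so does every function in a small ball of `C^ω[0,1]` around `f₀`.  For such
`f` the set of `t` with `|t - t₀| < R`, `|f(t) - f(t₀)| < R` is porous at all scales between `R` and
`R^(1/η)`, hence it is covered by a polynomially smaller number of cells than the whole interval, and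
the packing numbers in the definition of the Assouad spectrum improve by a power of `r`.
-/

open Set Filter Topology Pool.Agent.Lib.MP_6b2627_an

namespace Pool.Agent.Results.MP_6b2627_an.Disproof

/-- For every `η ∈ (0,1)` and the concave modulus `ω(t) = t^η` (for which
`lim log ω(t) / log t = η`): there is a non-empty open set of functions `f` in
`(C^ω[0,1], ‖·‖_ω)` with `dim_A^θ G_f < 2 - (η - θ)/(1 - θ)` for all `θ ∈ (0,η]`; and for every single
`θ ∈ (0,η]` the set of `f` with `dim_A^θ G_f = 2 - (η - θ)/(1 - θ)` is not residual. -/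
theorem result : ∀ η : ℝ, 0 < η → η < 1 → ∃ ω : ConcaveModulus,
    (∀ t, ω t = t ^ η) ∧
    Tendsto (fun t => Real.log (ω t) / Real.log t) (𝓝[>] 0) (𝓝 η) ∧
    (∃ U : Set (COmega ω), IsOpen U ∧ U.Nonempty ∧ ∀ f ∈ U, ∀ θ ∈ Ioc 0 η,
      assouadSpectrum θ (graph f.fn) < 2 - (η - θ) / (1 - θ)) ∧
    ∀ θ ∈ Ioc 0 η,
      {f : COmega ω | assouadSpectrum θ (graph f.fn) = 2 - (η - θ) / (1 - θ)} ∉
        residual (COmega ω) :=
  main

end Pool.Agent.Results.MP_6b2627_an.Disproof
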